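import Mathlib

namespace Pool.Agent.Results.MP_75e066_al.Counter

/-- A hypergroup structure on `H` (axioms H1, H2, H3). -/
structure Hypergroup (H : Type) where
  mul : H → H → Set H
  one : H
  star : H → H
  assoc : ∀ p q r, (⋃ x ∈ mul q r, mul p x) = ⋃ x ∈ mul p q, mul x r
  mul_one : ∀ s, mul s one = {s}
  h3 : ∀ p q r, r ∈ mul p q → q ∈ mul (star p) r ∧ p ∈ mul r (star q)

variable {H : Type} (G : Hypergroup H)

/-- Product of subsets. -/
def smul (P Q : Set H) : Set H := ⋃ p ∈ P, ⋃ q ∈ Q, G.mul p q

/-- Closed subsets: nonempty with `F^* F ⊆ F`. -/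
def IsClosed (F : Set H) : Prop := F.Nonempty ∧ smul G (G.star '' F) F ⊆ F

/-- `F` is normal in `E`: `F h ⊆ h F` for all `h ∈ E`. -/
def NormalIn (F E : Set H) : Prop := ∀ h ∈ E, smul G F {h} ⊆ smul G {h} F

/-- `F` is strongly normal in `E`: `h^* F h ⊆ F` for all `h ∈ E`. -/
def StronglyNormalIn (F E : Set H) : Prop :=
  ∀ h ∈ E, smul G (smul G {G.star h} F) {h} ⊆ F

/-- A chain of closed subsets from `F` to `H`, each term both normal and strongly normal in
the next one. -/
def StronglySubnormal (F : Set H) : Prop :=
  ∃ (n : ℕ) (C : ℕ → Set H), 1 ≤ n ∧ C 0 = F ∧ C n = Set.univ ∧ (∀ i ≤ n, IsClosed G (C i)) ∧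
    ∀ i < n, C i ⊆ C (i + 1) ∧ NormalIn G (C i) (C (i + 1)) ∧
      StronglyNormalIn G (C i) (C (i + 1))

/-- The double coset `h^F = F h F`. -/
def dc (F : Set H) (h : H) : Set H := smul G (smul G F {h}) F

/-- The product `a^F · b^F = {x^F : x ∈ a F b}` in `H//F`. -/
def qmul (F : Set H) (a b : H) : Set (Set H) := dc G F '' smul G (smul G {a} F) {b}

/-- The upper central series: `Z (i+1)` is the set of `h` with `h^F` in the centre of `H//F`,
`F = Z i`. -/
def Z : ℕ → Set H
  | 0 => {G.one}
  | i + 1 => {h | (∀ x, qmul G (Z i) h x = qmul G (Z i) x h) ∧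
      qmul G (Z i) (G.star h) h = {dc G (Z i) G.one}}

def tab : ℕ :=
  0xc000c0030003001000200000090006003000300c000c00400080004000800000c000c0030003002000100000060009003000300c000c008000400080004000030003000030003000c000c00c000c0000090006400080001000100020002000030003000030003000c000c00c000c00000600098000400020002000100010003000300000c000c0c000c00000300030010002000005000a04000400080008003000300000c000c0c000c0000030003002000100000a000508000800040004000005000a040008000030003030003000c000c00000c000c00200010001000200000a0005080004000030003030003000c000c00000c000c00100020002000100001000200003000c03000300c000c0000c000c0030003000008000400040008000200010000c000303000300c000c0000c000c003000300000400080008000400c000c00c000c0000003000c00400080300030000300030000100020001000200c000c00c000c000000c000300800040300030000300030000200010002000108000400020001000040008000100020000400080001000200001000200040008400080001000200008000400020001000040008000100020000200010008000440008000100020000400080001000200008000400020001000040008000100028000400020001000080004000200010000800040002000100008000400020001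

def r (p q x : Fin 16) : Bool := tab.testBit (256 * p.val + 16 * q.val + x.val)

def st (p : Fin 16) : Fin 16 :=
  ([0, 1, 2, 3, 10, 11, 12, 13, 14, 15, 4, 5, 6, 7, 8, 9] : List (Fin 16)).getD p 0

theorem r_assoc' : (List.finRange 16).all (fun p => (List.finRange 16).all fun q =>
    (List.finRange 16).all fun s =>
      let A := (List.finRange 16).filter (fun x => r q s x)
      let B := (List.finRange 16).filter (fun x => r p q x)
      (List.finRange 16).all fun t => A.any (fun x => r p x t) == B.any (fun x => r x s t)) = true := by
  decide +kernel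

theorem r_assoc (p q s t : Fin 16) :
    (List.finRange 16).any (fun x => r q s x && r p x t) =
      (List.finRange 16).any (fun x => r p q x && r x s t) := by
  have := r_assoc'
  simp only [List.all_eq_true, List.mem_finRange, forall_const, beq_iff_eq] at this
  have := this p q s t
  rw [Bool.eq_iff_iff] at this ⊢
  simpa using this

theorem r_one : ∀ s x : Fin 16, r s 0 x = true ↔ x = s := by decide +kernel
theorem r_one' : ∀ s x : Fin 16, r 0 s x = true ↔ x = s := by decide +kernel
theorem r_h3 : ∀ p q x : Fin 16, r p q x = true → r (st p) x q = true ∧ r x (st q) p = true := by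
  decide +kernel

/-- The double coset hypergroup of `AGL(1,8)` modulo a subgroup of order two. -/
def G0 : Hypergroup (Fin 16) where
  mul p q := {x | r p q x = true}
  one := 0
  star := st
  assoc p q s := by
    ext t
    have := r_assoc p q s t
    rw [Bool.eq_iff_iff] at this
    simpa using this
  mul_one s := by ext x; simp [r_one]
  h3 := r_h3

theorem mem_smul (P Q : Set (Fin 16)) (x : Fin 16) :
    x ∈ smul G0 P Q ↔ ∃ p ∈ P, ∃ q ∈ Q, r p q x = true := by
  simp [smul, G0]

theorem smul_one (P : Set (Fin 16)) : smul G0 P {0} = P := by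
  ext x; simp [mem_smul, r_one]

theorem one_smul' (P : Set (Fin 16)) : smul G0 {0} P = P := by
  ext x; simp [mem_smul, r_one']

theorem Z_eq (n : ℕ) : Z G0 n = {0} := by
  induction n with
  | zero => rfl
  | succ n ih =>
    have hd : ∀ h, dc G0 {0} h = {h} := fun h => by rw [dc, smul_one, one_smul']
    have hq : ∀ a b, qmul G0 {0} a b = (fun h => ({h} : Set (Fin 16))) '' {x | r a b x = true} := by
      intro a b
      rw [qmul, smul_one]
      have : dc G0 {0} = fun h => ({h} : Set (Fin 16)) := funext hd
      rw [this]; congr 1; ext x; simp [mem_smul]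
    have inj : Function.Injective (fun h : Fin 16 => ({h} : Set (Fin 16))) :=
      Set.singleton_injective
    ext h
    simp only [Z, ih, Set.mem_ofPred_eq, hq, hd, Set.mem_singleton_iff]
    constructor
    · rintro ⟨h1, h2⟩
      have h1' : ∀ x y, r h x y = r x h y := by
        intro x y
        have := Set.image_injective.2 inj (h1 x)
        have := congrArg (fun S => y ∈ S) this
        simp only [Set.mem_ofPred_eq, eq_iff_iff] at this
        exact Bool.eq_iff_iff.2 this
      revert h1'; clear h1 h2; revert h; decide +kernel
    · rintro rfl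
      refine ⟨fun x => ?_, ?_⟩
      · congr 1; ext y; simp [r_one, r_one']
      · have : {x | r (G0.star 0) 0 x = true} = {0} := by
          ext y; simp only [Set.mem_ofPred_eq, r_one]; rfl
        rw [this, Set.image_singleton]; rfl

def V : Set (Fin 16) := {x | x.val < 4}

theorem V_closed : IsClosed G0 V := by
  refine ⟨⟨0, by simp [V]⟩, ?_⟩
  intro x hx
  rw [mem_smul] at hx
  obtain ⟨_, ⟨p, hp, rfl⟩, q, hq, h⟩ := hx
  have : ∀ p q x : Fin 16, p.val < 4 → q.val < 4 → r (st p) q x = true → x.val < 4 := by
    decide +kernel
  exact this p q x hp hq h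

theorem univ_closed : IsClosed G0 Set.univ := ⟨⟨0, trivial⟩, fun _ _ => trivial⟩

theorem big (F : Set (Fin 16)) (hF : IsClosed G0 F) (a : Fin 16) (ha : a ∈ F) (h4 : ¬ a.val < 4) :
    F = Set.univ := by
  have step : ∀ p q x, p ∈ F → q ∈ F → r (st p) q x = true → x ∈ F := fun p q x hp hq h =>
    hF.2 ((mem_smul _ _ _).2 ⟨_, ⟨p, hp, rfl⟩, q, hq, h⟩)
  let nx : List (Fin 16) → List (Fin 16) := fun S =>
    (List.finRange 16).filter fun x => S.any fun p => S.any fun q => r (st p) q x || (x == p)
  have hn : ∀ S : List (Fin 16), (∀ x ∈ S, x ∈ F) → ∀ x ∈ nx S, x ∈ F := by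
    intro S hS x hx
    simp only [nx, List.mem_filter, List.any_eq_true, Bool.or_eq_true, beq_iff_eq] at hx
    obtain ⟨-, p, hp, q, hq, h | h⟩ := hx
    · exact step p q x (hS p hp) (hS q hq) h
    · exact h ▸ hS p hp
  have key : ∀ a : Fin 16, ¬ a.val < 4 → ∀ x, x ∈ nx (nx (nx (nx (nx [a])))) := by
    decide +kernel
  refine Set.eq_univ_of_forall fun x => ?_
  exact hn _ (hn _ (hn _ (hn _ (hn _ (by simpa using ha))))) x (key a h4 x)

theorem result : ∃ (H : Type) (_ : Finite H) (G : Hypergroup H),
    (∀ F : Set H, IsClosed G F → StronglySubnormal G F) ∧ ∀ n, Z G n ≠ Set.univ := by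
  refine ⟨Fin 16, inferInstance, G0, fun F hF => ?_, fun n h => ?_⟩
  · by_cases h : ∀ a ∈ F, a.val < 4
    · refine ⟨2, fun i => if i = 0 then F else if i = 1 then V else Set.univ, by norm_num,
        by simp, by simp, ?_, ?_⟩
      · intro i hi
        interval_cases i
        · simpa using hF
        · simpa using V_closed
        · simpa using univ_closed
      · intro i hi
        interval_cases i
        · simp only [if_true, zero_add, one_ne_zero, if_false]
          refine ⟨h, ?_, ?_⟩
          · intro a ha x hx
            rw [mem_smul] at hx ⊢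
            obtain ⟨p, hp, q, rfl, hr⟩ := hx
            have : ∀ p q x : Fin 16, p.val < 4 → q.val < 4 → r p q x = true → r q p x = true := by
              decide +kernel
            exact ⟨q, rfl, p, hp, this p q x (h p hp) ha hr⟩
          · intro a ha x hx
            rw [mem_smul] at hx
            obtain ⟨y, hy, q, rfl, hr⟩ := hx
            rw [mem_smul] at hy
            obtain ⟨_, rfl, p, hp, hr'⟩ := hy
            have : ∀ p q x y : Fin 16, p.val < 4 → q.val < 4 → r (st q) p y = true →
                r y q x = true → x = p := by
              decide +kernel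
            exact (this p q x y (h p hp) ha hr' hr) ▸ hp
        · simp only [one_ne_zero, if_false, if_true]
          norm_num
          refine ⟨?_, ?_⟩
          · intro a _ x hx
            rw [mem_smul] at hx ⊢
            obtain ⟨p, hp, q, rfl, hr⟩ := hx
            have : ∀ p q x : Fin 16, p.val < 4 → r p q x = true →
                ∃ p' : Fin 16, p'.val < 4 ∧ r q p' x = true := by
              decide +kernel
            obtain ⟨p', hp', hr'⟩ := this p q x hp hr
            exact ⟨q, rfl, p', hp', hr'⟩
          · intro a _ x hx
            rw [mem_smul] at hx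
            obtain ⟨y, hy, q, rfl, hr⟩ := hx
            rw [mem_smul] at hy
            obtain ⟨_, rfl, p, hp, hr'⟩ := hy
            have : ∀ p q x y : Fin 16, p.val < 4 → r (st q) p y = true →
                r y q x = true → x.val < 4 := by
              decide +kernel
            exact this p q x y hp hr' hr
    · push Not at h
      obtain ⟨a, ha, h4⟩ := h
      have hU := big F hF a ha (by omega)
      subst hU
      refine ⟨1, fun _ => Set.univ, le_rfl, rfl, rfl, fun _ _ => univ_closed, fun i _ =>
        ⟨le_rfl, ?_, fun _ _ _ _ => trivial⟩⟩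
      intro a _ x _
      rw [mem_smul]
      have : ∀ a x : Fin 16, ∃ q, r a q x = true := by decide +kernel
      obtain ⟨q, hq⟩ := this a x
      exact ⟨a, rfl, q, trivial, hq⟩
  · rw [Z_eq] at h
    have : (1 : Fin 16) ∈ ({0} : Set (Fin 16)) := h ▸ Set.mem_univ _
    simp at this

end Pool.Agent.Results.MP_75e066_al.Counter
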